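import Pool.Agent.Helper78.PM.Goals
import Pool.Agent.Helper16.AO.PTM

/-!
# Project PM, packet PMT: the answers are computed in polynomial time
-/

set_option autoImplicit false

namespace Pool.Agent.Helper89.PM

open Pool.Agent.Helper78.AO Pool.Agent.Helper81.CC
open Pool.Agent.Helper51.ZP (sz_bools)
open Pool.Agent.Helper78.PM (thr FK PmtStmt)
open Pool.Agent.Helper16.AO (stp bits_eq length_bits St stg runK_eq Inv inv_iter sz_inv pt_bd pt_msize)

variable (A : Pool.Agent.Helper78.PM.Machine) {γ : Type} [ToData γ]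

theorem pt_act : PolyTime A.act := Pool.Agent.Helper78.LM.PT_of_comp A.act_poly

theorem pt_m : PolyTime A.m := Pool.Agent.Helper78.LM.PT_of_comp A.m_poly

theorem pt_T : PolyTime A.T := Pool.Agent.Helper78.LM.PT_of_comp A.T_poly

theorem pt_r : PolyTime A.r := Pool.Agent.Helper78.LM.PT_of_comp A.r_poly

theorem pt_out : PolyTime A.out := Pool.Agent.Helper78.LM.PT_of_comp A.out_poly

theorem pt_act' {j : γ → ℕ} {x : γ → List Bool} {i : γ → ℕ} {M : γ → Mem} {a : γ → List Bool}
    (hj : PolyTime j) (hx : PolyTime x) (hi : PolyTime i) (hM : PolyTime M) (ha : PolyTime a) :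
    PolyTime fun c => (thr A (j c)).act (x c, i c, M c, a c) :=
  PolyTime.comp (g := A.act) (f := fun c => (j c, x c, i c, M c, a c)) (pt_act A) (by fun_prop)

/-! ### The bits read by a stage -/

theorem pt_bits {j : γ → ℕ} {x : γ → List Bool} {b : γ → ℕ → Bool} {i : γ → ℕ} {M : γ → Mem}
    {k : γ → ℕ} (hj : PolyTime j)
    (hx : PolyTime x) (hb : PolyTime (fun z : γ × ℕ => b z.1 z.2)) (hi : PolyTime i)
    (hM : PolyTime M) (hk : PolyTime k) :
    PolyTime fun c => bits (thr A (j c)) (x c) (b c) (i c) (M c) (k c) := by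
  have h0 : PolyTime fun c => (stp (thr A (j c)) (x c) (b c) (i c) (M c))^[k c] [] := by
    refine PolyTime.iterate_bd (n := k) (s0 := fun _ => ([] : List Bool))
      (step := fun c a => stp (thr A (j c)) (x c) (b c) (i c) (M c) a) hk (by fun_prop) ?_
      (B := fun c => 4 * k c + 1) (((PBd.const 4).mul (PBd.nat hk)).add (PBd.const 1)) ?_
    · have h1 : PolyTime fun z : γ × List Bool =>
          (thr A (j z.1)).act (x z.1, i z.1, M z.1, z.2) :=
        pt_act' A (j := fun z : γ × List Bool => j z.1) (x := fun z : γ × List Bool => x z.1)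
          (i := fun z => i z.1) (M := fun z => M z.1) (a := fun z => z.2) (by fun_prop)
          (by fun_prop) (by fun_prop) (by fun_prop) (by fun_prop)
      have h2 : PolyTime fun z : γ × List Bool =>
          b z.1 ((thr A (j z.1)).act (x z.1, i z.1, M z.1, z.2) - 4) :=
        PolyTime.comp (g := fun z : γ × ℕ => b z.1 z.2)
          (f := fun z : γ × List Bool =>
            (z.1, (thr A (j z.1)).act (x z.1, i z.1, M z.1, z.2) - 4)) hb
          (by fun_prop)
      unfold stp
      exact PolyTime.itep (PolyTime.decide_le (by fun_prop) h1)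
        (PolyTime.append (by fun_prop) (PolyTime.list_cons h2 (by fun_prop))) (by fun_prop)
    · intro c n hn
      have h1 := length_bits (thr A (j c)) (x c) (b c) (i c) (M c) n
      have h2 := sz_bools ((stp (thr A (j c)) (x c) (b c) (i c) (M c))^[n] [])
      rw [← bits_eq] at h2 ⊢
      change sz (bits (thr A (j c)) (x c) (b c) (i c) (M c) n) ≤ _
      omega
  exact PolyTime.congr h0 fun c => (bits_eq (thr A (j c)) _ _ _ _ _).symm

/-! ### Literals -/

theorem pt_lit {j : γ → ℕ} {x : γ → List Bool} {i : γ → ℕ} {M : γ → Mem} {a : γ → List Bool}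
    (hj : PolyTime j) (hx : PolyTime x) (hi : PolyTime i) (hM : PolyTime M) (ha : PolyTime a) :
    PolyTime fun c => lit (thr A (j c)) (x c) (i c) (M c) (a c) := by
  unfold lit
  have h1 : PolyTime fun z : γ × ℕ =>
      (thr A (j z.1)).act (x z.1, i z.1, M z.1, (a z.1).take z.2) :=
    pt_act' A (j := fun z : γ × ℕ => j z.1) (x := fun z : γ × ℕ => x z.1) (i := fun z => i z.1)
      (M := fun z => M z.1) (a := fun z => (a z.1).take z.2) (by fun_prop) (by fun_prop)
      (by fun_prop) (by fun_prop) (by fun_prop)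
  have h2 : PolyTime fun z : γ × ℕ => (a z.1).getD z.2 false :=
    PolyTime.getD (n := fun z : γ × ℕ => z.2) (l := fun z : γ × ℕ => a z.1)
      (d := fun _ => false) (by fun_prop) (by fun_prop) (by fun_prop)
  refine PolyTime.list_map (l := fun c => List.range (a c).length)
    (f := fun c k => ((thr A (j c)).act (x c, i c, M c, (a c).take k) - 4, (a c).getD k false))
    (by fun_prop) ?_
  exact PolyTime.pair (by fun_prop) h2

theorem pt_litm {j : γ → ℕ} {x : γ → List Bool} {M : γ → Mem} (hj : PolyTime j)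
    (hx : PolyTime x) (hM : PolyTime M) :
    PolyTime fun c => litm (thr A (j c)) (x c) (M c) := by
  unfold litm
  have h1 : PolyTime fun z : γ × ℕ => (M z.1).getD z.2 (0, []) :=
    PolyTime.getD (n := fun z : γ × ℕ => z.2) (l := fun z : γ × ℕ => M z.1)
      (d := fun _ => ((0, []) : ℕ × List Bool)) (by fun_prop) (by fun_prop) (by fun_prop)
  refine PolyTime.flatMap (l := fun c => List.range (M c).length)
    (f := fun c k => lit (thr A (j c)) (x c) ((M c).getD k (0, [])).1 ((M c).take k)
      ((M c).getD k (0, [])).2) (by fun_prop) ?_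
  exact pt_lit A (j := fun z : γ × ℕ => j z.1) (x := fun z : γ × ℕ => x z.1)
    (i := fun z => ((M z.1).getD z.2 (0, [])).1)
    (M := fun z => (M z.1).take z.2) (a := fun z => ((M z.1).getD z.2 (0, [])).2)
    (by fun_prop) (by fun_prop) (PolyTime.fst h1) (by fun_prop) (PolyTime.snd h1)

theorem pt_nms {j : γ → ℕ} {x : γ → List Bool} {l : γ → List (ℕ × Bool)} (hx : PolyTime x)
    (hl : PolyTime l) : PolyTime fun c => nms (thr A (j c)) (x c) (l c) := by
  unfold nms
  refine Pool.Agent.Helper37.DT.pt_dedup ?_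
  have hm : PolyTime fun c => A.m (x c) := PolyTime.comp (pt_m A) hx
  have hm' : PolyTime fun z : γ × ℕ => A.m (x z.1) :=
    PolyTime.comp (g := fun c => A.m (x c)) hm (by fun_prop)
  refine PolyTime.filter (f := fun c v => decide (v < A.m (x c)))
    (l := fun c => (l c).map fun p => p.1)
    (PolyTime.list_map (f := fun (_ : γ) (p : ℕ × Bool) => p.1) hl (by fun_prop)) ?_
  exact PolyTime.decide_lt (by fun_prop) hm'

theorem pt_okl {j : γ → ℕ} {x : γ → List Bool} {K t : γ → ℕ} {h : γ → ℕ → ℕ}
    {l : γ → List (ℕ × Bool)}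
    (hx : PolyTime x) (hK : PolyTime K) (ht : PolyTime t)
    (hh : PolyTime (fun z : γ × ℕ => h z.1 z.2)) (hl : PolyTime l) :
    PolyTime fun c => okl (thr A (j c)) (x c) (K c) (t c) (h c) (l c) := by
  unfold okl
  have hr : PolyTime fun c => nms (thr A (j c)) (x c) (l c) := pt_nms A hx hl
  refine PolyTime.all (f := fun c k => decide (((nms (thr A (j c)) (x c) (l c)).filter
    fun v => decide (h c v = k)).length ≤ t c)) (by fun_prop) ?_
  have hr' : PolyTime fun z : γ × ℕ => nms (thr A (j z.1)) (x z.1) (l z.1) :=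
    PolyTime.comp (g := fun c => nms (thr A (j c)) (x c) (l c)) hr (by fun_prop)
  refine PolyTime.decide_le (PolyTime.length ?_) (by fun_prop)
  refine PolyTime.filter (f := fun (z : γ × ℕ) v => decide (h z.1 v = z.2)) hr' ?_
  have h2 : PolyTime fun y : (γ × ℕ) × ℕ => h y.1.1 y.2 :=
    PolyTime.comp (g := fun z : γ × ℕ => h z.1 z.2) (f := fun y : (γ × ℕ) × ℕ => (y.1.1, y.2)) hh
      (by fun_prop)
  exact PolyTime.decide_eq h2 (by fun_prop)

/-! ### The run as an iteration -/

theorem pt_stg {j : γ → ℕ} {x : γ → List Bool} {K t : γ → ℕ} {h : γ → ℕ → ℕ}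
    {b : γ → ℕ → Bool} (k : ℕ)
    {s : γ → St} (hj : PolyTime j) (hx : PolyTime x) (hK : PolyTime K) (ht : PolyTime t)
    (hh : PolyTime (fun z : γ × ℕ => h z.1 z.2)) (hb : PolyTime (fun z : γ × ℕ => b z.1 z.2))
    (hs : PolyTime s) :
    PolyTime fun c => stg (thr A (j c)) k (K c) (t c) (x c) (h c) (b c) (s c) := by
  have hi : PolyTime fun c => (s c).1 := PolyTime.fst hs
  have hM : PolyTime fun c => (s c).2.1 := PolyTime.fst (PolyTime.snd hs)
  have ho : PolyTime fun c => (s c).2.2 := PolyTime.snd (PolyTime.snd hs)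
  have hbd : PolyTime fun c => bd k (x c) := pt_bd k hx
  have hbits : PolyTime fun c =>
      bits (thr A (j c)) (x c) (b c) (s c).1 (s c).2.1 (bd k (x c)) :=
    pt_bits A hj hx hb hi hM hbd
  have hact : PolyTime fun c => (thr A (j c)).act (x c, (s c).1, (s c).2.1,
      bits (thr A (j c)) (x c) (b c) (s c).1 (s c).2.1 (bd k (x c))) :=
    pt_act' A hj hx hi hM hbits
  have hok : PolyTime fun c => okl (thr A (j c)) (x c) (K c) (t c) (h c)
      (litm (thr A (j c)) (x c) (s c).2.1 ++
      lit (thr A (j c)) (x c) (s c).1 (s c).2.1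
        (bits (thr A (j c)) (x c) (b c) (s c).1 (s c).2.1 (bd k (x c)))) :=
    pt_okl A hx hK ht hh (PolyTime.append (pt_litm A hj hx hM) (pt_lit A hj hx hi hM hbits))
  have hms : PolyTime fun c => msize (s c).2.1 := pt_msize hM
  have hlen : PolyTime fun c =>
      (bits (thr A (j c)) (x c) (b c) (s c).1 (s c).2.1 (bd k (x c))).length :=
    PolyTime.length hbits
  unfold stg
  refine PolyTime.itep (PolyTime.decide_eq (PolyTime.isSome ho) (by fun_prop)) hs ?_
  refine PolyTime.itep (PolyTime.decide_eq hok (by fun_prop)) (by fun_prop) ?_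
  refine PolyTime.itep (PolyTime.decide_eq hact (by fun_prop)) (by fun_prop) ?_
  refine PolyTime.itep (PolyTime.decide_eq hact (by fun_prop)) (by fun_prop) ?_
  refine PolyTime.itep (PolyTime.decide_and (PolyTime.decide_eq hact (by fun_prop))
    (PolyTime.decide_le (PolyTime.add hms hlen) hbd)) ?_ (by fun_prop)
  refine PolyTime.pair (by fun_prop) (PolyTime.pair (PolyTime.append hM
    (PolyTime.list_cons (PolyTime.pair hi hbits) (by fun_prop))) (by fun_prop))

theorem pt_runK (k : ℕ) {j : γ → ℕ} {x : γ → List Bool} {K t : γ → ℕ} {h : γ → ℕ → ℕ}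
    {b : γ → ℕ → Bool} (hj : PolyTime j) (hx : PolyTime x) (hK : PolyTime K) (ht : PolyTime t)
    (hh : PolyTime (fun z : γ × ℕ => h z.1 z.2)) (hb : PolyTime (fun z : γ × ℕ => b z.1 z.2)) :
    PolyTime fun c => runK (thr A (j c)) (x c) k (K c) (t c) (h c) (b c) (A.T (x c)) 0 [] := by
  have hT : PolyTime fun c => A.T (x c) := PolyTime.comp (pt_T A) hx
  have hbd : PolyTime fun c => bd k (x c) := pt_bd k hx
  have h1 : PolyTime fun c =>
      (stg (thr A (j c)) k (K c) (t c) (x c) (h c) (b c))^[A.T (x c)] (0, [], none) := by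
    refine PolyTime.iterate_bd (n := fun c => A.T (x c)) (s0 := fun _ => ((0, [], none) : St))
      (step := fun c s => stg (thr A (j c)) k (K c) (t c) (x c) (h c) (b c) s) hT
      (by fun_prop) ?_
      (B := fun c => (2 * A.T (x c) + 1) + (A.T (x c) * ((2 * A.T (x c) + 1) +
        (4 * bd k (x c) + 1) + 1 + 1) + 1) + 7) (PBd.nat (by fun_prop)) ?_
    · refine pt_stg A (γ := γ × St) (j := fun z => j z.1) (x := fun z => x z.1)
        (K := fun z => K z.1)
        (t := fun z => t z.1) (h := fun z => h z.1) (b := fun z => b z.1) k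
        (s := fun z => z.2) (by fun_prop) (by fun_prop) (by fun_prop) (by fun_prop) ?_ ?_
        (by fun_prop)
      · exact PolyTime.comp (g := fun z : γ × ℕ => h z.1 z.2)
          (f := fun y : (γ × St) × ℕ => (y.1.1, y.2)) hh (by fun_prop)
      · exact PolyTime.comp (g := fun z : γ × ℕ => b z.1 z.2)
          (f := fun y : (γ × St) × ℕ => (y.1.1, y.2)) hb (by fun_prop)
    · intro c n hn
      exact sz_inv k (x c) n (A.T (x c)) hn _
        (inv_iter (thr A (j c)) k (K c) (t c) (x c) (h c) (b c) n)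
  have h2 : PolyTime fun c => ((stg (thr A (j c)) k (K c) (t c) (x c) (h c) (b c))^[A.T (x c)]
      (0, [], none)).2.2 := PolyTime.snd (PolyTime.snd h1)
  have h3 : PolyTime fun c => ((stg (thr A (j c)) k (K c) (t c) (x c) (h c) (b c))^[A.T (x c)]
      (0, [], none)).2.2.getD false := PolyTime.option_getD h2 (by fun_prop)
  exact PolyTime.congr h3 fun c =>
    (runK_eq (thr A (j c)) k (K c) (t c) (x c) (h c) (b c) _ 0 []).symm

theorem pmt : PmtStmt := by
  intro A k γ _ x K t h b hx hK ht hh hb
  have h1 : PolyTime fun z : γ × ℕ =>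
      runK (thr A z.2) (x z.1) k (K z.1) (t z.1) (h z.1) (b z.1) (A.T (x z.1)) 0 [] := by
    refine pt_runK A (γ := γ × ℕ) (j := fun z => z.2) (x := fun z => x z.1)
      (K := fun z => K z.1) (t := fun z => t z.1) (h := fun z => h z.1) (b := fun z => b z.1) k
      (by fun_prop) (by fun_prop) (by fun_prop) (by fun_prop) ?_ ?_
    · exact PolyTime.comp (g := fun z : γ × ℕ => h z.1 z.2)
        (f := fun y : (γ × ℕ) × ℕ => (y.1.1, y.2)) hh (by fun_prop)
    · exact PolyTime.comp (g := fun z : γ × ℕ => b z.1 z.2)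
        (f := fun y : (γ × ℕ) × ℕ => (y.1.1, y.2)) hb (by fun_prop)
  have hr : PolyTime fun c => A.r (x c) := PolyTime.comp (pt_r A) hx
  have h2 : PolyTime fun c => (List.range (A.r (x c))).map fun j =>
      runK (thr A j) (x c) k (K c) (t c) (h c) (b c) (A.T (x c)) 0 [] :=
    PolyTime.list_map (l := fun c => List.range (A.r (x c)))
      (f := fun c j => runK (thr A j) (x c) k (K c) (t c) (h c) (b c) (A.T (x c)) 0 [])
      (PolyTime.range hr) h1
  exact PolyTime.comp (g := A.out) (f := fun c => (x c, (List.range (A.r (x c))).map fun j =>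
      runK (thr A j) (x c) k (K c) (t c) (h c) (b c) (A.T (x c)) 0 []))
    (pt_out A) (PolyTime.pair hx h2)

end Pool.Agent.Helper89.PM
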